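import Pool.Agent.H389R3.HC7

set_option autoImplicit false

namespace Pool.Agent.Results.MP_127c5d_co.HeeschConnected

open Pool.Agent.H389R3.Heesch hiding body W tile closure_interior_body isCompact_body mem_W W_subset_interior surrounded not_tiles
open Pool.Agent.H389R3.HC

/-- In every dimension `n ≥ 2` and for every `k` there is a connected body of Euclidean `n`-space
that can be completely surrounded `k` times by congruent copies of itself but is not the prototile
of a monohedral tiling.  For `n ≥ 3` the interior of the body is connected as well. -/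
theorem result : ∀ n : ℕ, 2 ≤ n → ∀ k : ℕ, ∃ A : Set (EuclideanSpace ℝ (Fin n)),
    IsBody A ∧ IsConnected A ∧ (3 ≤ n → IsConnected (interior A)) ∧
      Surrounded A k ∧ ¬ TilesSpace A := by
  intro n hn k
  have h0 : 0 < n := by omega
  have h1 : 1 < n := by omega
  have h01 : (⟨0, h0⟩ : Fin n) ≠ ⟨1, h1⟩ := by
    intro h
    simp at h
  have hw : 0 < ww n := ww_pos hn
  -- the general part of the argument
  have key : ∀ pr : Par n, pr.Good → ∃ (w : Fin n → ℤ) (s : ℤ),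
      (s = 2 * (4 * (k : ℤ) + 8) ∨ s = 0) ∧
      IsBody (body pr (Fs pr.i₀ (2 * (4 * (k : ℤ) + 8)) w)
        (Ds pr.i₀ pr.i₁ (2 * (4 * (k : ℤ) + 8)) w s)) ∧
      Surrounded (body pr (Fs pr.i₀ (2 * (4 * (k : ℤ) + 8)) w)
        (Ds pr.i₀ pr.i₁ (2 * (4 * (k : ℤ) + 8)) w s)) k ∧
      ¬ TilesSpace (body pr (Fs pr.i₀ (2 * (4 * (k : ℤ) + 8)) w)
        (Ds pr.i₀ pr.i₁ (2 * (4 * (k : ℤ) + 8)) w s)) := by
    intro pr hp
    set q : ℤ := 2 * (4 * (k : ℤ) + 8) with hq
    set v : Fin n → ℤ := Function.update 0 pr.i₀ (4 * (k : ℤ) + 8) with hv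
    refine ⟨bs pr.i₀ pr.i₁ q v, sg pr.i₀ pr.i₁ q v, sg_or v, ⟨isCompact_body, ?_,
      closure_interior_body⟩, surrounded' hp k rfl, ?_⟩
    · refine ⟨_, W_subset_interior (mem_W.2 (Or.inl
        ⟨bs pr.i₀ pr.i₁ q v, ?_, G_nonempty hp _⟩))⟩
      rw [mem_Fs]
      exact ⟨fun _ _ => rfl, le_rfl, by omega⟩
    · apply not_tiles hp
      have e1 := card_Fs (i₀ := pr.i₀) (q := q) (by omega) (bs pr.i₀ pr.i₁ q v)
      have e2 := card_Ds (i₀ := pr.i₀) (i₁ := pr.i₁) (q := q) (by omega) (bs pr.i₀ pr.i₁ q v)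
        (sg pr.i₀ pr.i₁ q v)
      omega
  by_cases h3 : 3 ≤ n
  · let pr : Par n := ⟨⟨0, h0⟩, ⟨1, h1⟩, h01, ww n, 0⟩
    have hp : pr.Good := ⟨hn, hw.le, le_rfl, le_rfl, hw.le, by show 0 < ww n + 0; linarith⟩
    obtain ⟨w, s, hs, hb, hsur, hnt⟩ := key pr hp
    have h2n : 2 < n := by omega
    have hci := connected_interior (w := w) hp rfl (m := (⟨2, h2n⟩ : Fin n))
      (by intro h; simp [pr] at h) (by intro h; simp [pr] at h)
      (q := 2 * (4 * (k : ℤ) + 8)) (by omega) hs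
    refine ⟨_, hb, ?_, fun _ => hci, hsur, hnt⟩
    have := hci.closure
    rw [closure_interior_body] at this
    exact this
  · let pr : Par n := ⟨⟨0, h0⟩, ⟨1, h1⟩, h01, 0, ww n⟩
    have hp : pr.Good := ⟨hn, le_rfl, hw.le, hw.le, le_rfl, by show 0 < 0 + ww n; linarith⟩
    obtain ⟨w, s, hs, hb, hsur, hnt⟩ := key pr hp
    exact ⟨_, hb, connected_body hp rfl (by omega) hs, fun h => absurd h h3, hsur, hnt⟩

end Pool.Agent.Results.MP_127c5d_co.HeeschConnected
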